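import Mathlib

set_option autoImplicit false

namespace Pool.Agent.Results.MP_5e3dfa_co.OrderOfMagnitude

open Finset

/-- `F` is a maximal intersecting family of `n/2`-element subsets of `Fin n`. -/
def MaxIntersecting (n : ℕ) (F : Finset (Finset (Fin n))) : Prop :=
  (∀ A ∈ F, A.card = n / 2) ∧
  (∀ A ∈ F, ∀ B ∈ F, (A ∩ B).Nonempty) ∧
  (∀ A : Finset (Fin n), A.card = n / 2 →
    (∀ B ∈ insert A F, ∀ C ∈ insert A F, (B ∩ C).Nonempty) → A ∈ F)

/-- `M` is a system of pairwise disjoint `r`-element sets. -/
def DisjointSystem (n r : ℕ) (M : Finset (Finset (Fin n))) : Prop :=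
  (∀ B ∈ M, B.card = r) ∧ (∀ B ∈ M, ∀ C ∈ M, B ≠ C → Disjoint B C)

/-- `F` shatters `M`: every choice `t` of one element from each member of `M` is the trace of
some member of `F` on the union of `M`. -/
def Shatters (n : ℕ) (F M : Finset (Finset (Fin n))) : Prop :=
  ∀ t : Finset (Fin n) → Fin n, (∀ B ∈ M, t B ∈ B) →
    ∃ A ∈ F, A ∩ M.biUnion id = M.image t

/-- The largest `k` such that every maximal intersecting family of `n/2`-subsets of an
`n`-element set shatters some system of `k` pairwise disjoint `r`-sets. -/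
noncomputable def kr (r n : ℕ) : ℕ :=
  sSup {k : ℕ | ∀ F : Finset (Finset (Fin n)), MaxIntersecting n F →
    ∃ M : Finset (Finset (Fin n)), M.card = k ∧ DisjointSystem n r M ∧ Shatters n F M}

theorem compl_or {n : ℕ} (h2 : 2 ≤ n) (hn : Even n) {F : Finset (Finset (Fin n))}
    (hF : MaxIntersecting n F) (S : Finset (Fin n)) (hS : S.card = n / 2) :
    S ∈ F ∨ Sᶜ ∈ F := by
  by_cases hSF : S ∈ F
  · exact Or.inl hSF
  · right
    obtain ⟨h1, h2', h3⟩ := hF
    have hne : S.Nonempty := by
      rw [← Finset.card_pos, hS]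
      omega
    by_contra hc
    apply hSF
    apply h3 S hS
    have key : ∀ B ∈ F, (S ∩ B).Nonempty := by
      intro B hB
      by_contra hemp
      rw [Finset.not_nonempty_iff_eq_empty] at hemp
      have hsub : B ⊆ Sᶜ := by
        intro x hx
        rw [Finset.mem_compl]
        intro hxS
        have : x ∈ S ∩ B := Finset.mem_inter.mpr ⟨hxS, hx⟩
        rw [hemp] at this
        simp at this
      have hcard : Sᶜ.card ≤ B.card := by
        rw [Finset.card_compl, hS, h1 B hB, Fintype.card_fin]
        obtain ⟨q, hq⟩ := hn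
        omega
      have := Finset.eq_of_subset_of_card_le hsub hcard
      rw [this] at hB
      exact hc hB
    intro B hB C hC
    rw [Finset.mem_insert] at hB hC
    rcases hB with rfl | hB
    · rcases hC with rfl | hC
      · rw [Finset.inter_self]
        exact hne
      · exact key C hC
    · rcases hC with rfl | hC
      · rw [Finset.inter_comm]
        exact key B hB
      · exact h2' B hB C hC

theorem card_union {n r : ℕ} {M : Finset (Finset (Fin n))} (hM : DisjointSystem n r M) :
    (M.biUnion id).card = M.card * r := by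
  rw [Finset.card_biUnion]
  · have h1 : ∀ B ∈ M, (id B).card = r := fun B hB => hM.1 B hB
    rw [Finset.sum_congr rfl h1, Finset.sum_const, smul_eq_mul]
  · intro B hB C hC hne
    exact hM.2 B hB C hC hne

theorem card_image {n r : ℕ} {M : Finset (Finset (Fin n))} (hM : DisjointSystem n r M)
    (t : Finset (Fin n) → Fin n) (ht : ∀ B ∈ M, t B ∈ B) : (M.image t).card = M.card := by
  apply Finset.card_image_of_injOn
  intro B hB C hC h
  by_contra hne
  have hd := hM.2 B hB C hC hne
  rw [Finset.disjoint_left] at hd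
  exact hd (ht B hB) (h ▸ ht C hC)

theorem image_subset {n : ℕ} {M : Finset (Finset (Fin n))}
    (t : Finset (Fin n) → Fin n) (ht : ∀ B ∈ M, t B ∈ B) : M.image t ⊆ M.biUnion id := by
  intro x hx
  obtain ⟨B, hB, rfl⟩ := Finset.mem_image.mp hx
  exact Finset.mem_biUnion.mpr ⟨B, hB, ht B hB⟩

/-- Two systems with disjoint unions cannot both be unshattered. -/
theorem one_of_two {n r k : ℕ} (h2 : 2 ≤ n) (hn : Even n) (hk : 2 * r * k ≤ n)
    {F : Finset (Finset (Fin n))} (hF : MaxIntersecting n F)
    {M N : Finset (Finset (Fin n))} (hM : DisjointSystem n r M) (hN : DisjointSystem n r N)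
    (hMk : M.card = k) (hNk : N.card = k) (hd : Disjoint (M.biUnion id) (N.biUnion id)) :
    Shatters n F M ∨ Shatters n F N := by
  by_contra hcon
  rw [not_or] at hcon
  obtain ⟨h1, h1'⟩ := hcon
  unfold Shatters at h1 h1'
  push Not at h1 h1'
  obtain ⟨t, ht, hT⟩ := h1
  obtain ⟨s, hs, hS⟩ := h1'
  have cU := card_union hM
  have cV := card_union hN
  have cT := card_image hM t ht
  have cS := card_image hN s hs
  have sT := image_subset t ht
  have sS := image_subset s hs
  set U := M.biUnion id with hU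
  set W := N.biUnion id with hW
  set T := M.image t with hTdef
  set Z := N.image s with hZdef
  rw [hMk] at cU cT
  rw [hNk] at cV cS
  -- lower set and upper set
  have hsub : T ∪ (W \ Z) ⊆ ((U \ T) ∪ Z)ᶜ := by
    intro x hx
    rw [Finset.disjoint_left] at hd
    simp only [Finset.mem_union, Finset.mem_sdiff, Finset.mem_compl, not_or, not_and, not_not]
      at hx ⊢
    rcases hx with hx | ⟨hx1, hx2⟩
    · exact ⟨fun _ => hx, fun hz => hd (sT hx) (sS hz)⟩
    · exact ⟨fun hxU => absurd hx1 (hd hxU), hx2⟩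
  have c1 : (T ∪ (W \ Z)).card ≤ n / 2 := by
    have e1 := Finset.card_union_le T (W \ Z)
    have e2 := Finset.card_sdiff_add_card_eq_card sS
    obtain ⟨q, hq⟩ := hn
    have e3 : 2 * (k * r) ≤ n := by nlinarith
    omega
  have c2 : n / 2 ≤ (((U \ T) ∪ Z)ᶜ).card := by
    rw [Finset.card_compl, Fintype.card_fin]
    have e1 := Finset.card_union_le (U \ T) Z
    have e2 := Finset.card_sdiff_add_card_eq_card sT
    obtain ⟨q, hq⟩ := hn
    have e3 : 2 * (k * r) ≤ n := by nlinarith
    omega
  obtain ⟨A, hA1, hA2, hA3⟩ := Finset.exists_subsuperset_card_eq hsub c1 c2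
  have hAU : A ∩ U = T := by
    ext x
    simp only [Finset.mem_inter]
    constructor
    · rintro ⟨hxA, hxU⟩
      have := hA2 hxA
      simp only [Finset.mem_union, Finset.mem_sdiff, Finset.mem_compl, not_or, not_and,
        not_not] at this
      exact this.1 hxU
    · intro hx
      exact ⟨hA1 (Finset.mem_union_left _ hx), sT hx⟩
  have hAW : Aᶜ ∩ W = Z := by
    ext x
    simp only [Finset.mem_inter, Finset.mem_compl]
    constructor
    · rintro ⟨hxA, hxW⟩
      by_contra hxZ
      exact hxA (hA1 (Finset.mem_union_right _ (Finset.mem_sdiff.mpr ⟨hxW, hxZ⟩)))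
    · intro hx
      refine ⟨fun hxA => ?_, sS hx⟩
      have := hA2 hxA
      simp only [Finset.mem_union, Finset.mem_sdiff, Finset.mem_compl, not_or, not_and,
        not_not] at this
      exact this.2 hx
  rcases compl_or h2 hn hF A hA3 with h | h
  · exact hT A h hAU
  · exact hS Aᶜ h hAW

/-- Blocks of consecutive integers. -/
def block (n r : ℕ) (i : ℕ) : Finset (Fin n) :=
  univ.filter fun x => r * i ≤ (x : ℕ) ∧ (x : ℕ) < r * (i + 1)

theorem block_card {n r i : ℕ} (h : r * (i + 1) ≤ n) : (block n r i).card = r := by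
  have h1 : (block n r i).card = ((univ : Finset (Fin r))).card := by
    symm
    apply Finset.card_bij (fun (y : Fin r) _ => (⟨r * i + y, by
      have := y.2
      rw [Nat.mul_add] at h
      omega⟩ : Fin n))
    · intro y _
      simp only [block, Finset.mem_filter, Finset.mem_univ, true_and]
      have := y.2
      rw [Nat.mul_add]
      omega
    · intro y _ z _ hyz
      simp only [Fin.mk.injEq] at hyz
      exact Fin.ext (by omega)
    · intro x hx
      simp only [block, Finset.mem_filter, Finset.mem_univ, true_and] at hx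
      rw [Nat.mul_add] at hx
      refine ⟨⟨(x : ℕ) - r * i, by omega⟩, Finset.mem_univ _, ?_⟩
      apply Fin.ext
      simp only
      omega
  rw [h1, Finset.card_univ, Fintype.card_fin]

theorem block_disjoint {n r i j : ℕ} (h : i ≠ j) : Disjoint (block n r i) (block n r j) := by
  rw [Finset.disjoint_left]
  intro x hx hy
  simp only [block, Finset.mem_filter, Finset.mem_univ, true_and] at hx hy
  rcases Nat.lt_or_gt_of_ne h with hlt | hlt
  · have : r * (i + 1) ≤ r * j := Nat.mul_le_mul_left _ hlt
    omega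
  · have : r * (j + 1) ≤ r * i := Nat.mul_le_mul_left _ hlt
    omega

/-- The system of blocks with indices in `[a, a + k)`. -/
def blocks (n r a k : ℕ) : Finset (Finset (Fin n)) := (Finset.Ico a (a + k)).image (block n r)

theorem block_inj {n r i j : ℕ} (hr : 0 < r) (hi : r * (i + 1) ≤ n)
    (h : block n r i = block n r j) : i = j := by
  by_contra hne
  have hd := block_disjoint (n := n) (r := r) hne
  rw [← h, Finset.disjoint_self_iff_empty] at hd
  have := block_card hi
  rw [hd] at this
  simp at this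
  omega

theorem blocks_card {n r a k : ℕ} (hr : 0 < r) (h : r * (a + k) ≤ n) :
    (blocks n r a k).card = k := by
  rw [blocks, Finset.card_image_of_injOn]
  · simp
  · intro i hi j hj hij
    simp only [Finset.coe_Ico, Set.mem_Ico] at hi hj
    apply block_inj hr _ hij
    exact (Nat.mul_le_mul_left r (by omega)).trans h

theorem blocks_system {n r a k : ℕ} (h : r * (a + k) ≤ n) :
    DisjointSystem n r (blocks n r a k) := by
  constructor
  · intro B hB
    obtain ⟨i, hi, rfl⟩ := Finset.mem_image.mp hB
    rw [Finset.mem_Ico] at hi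
    exact block_card ((Nat.mul_le_mul_left r (by omega)).trans h)
  · intro B hB C hC hne
    obtain ⟨i, hi, rfl⟩ := Finset.mem_image.mp hB
    obtain ⟨j, hj, rfl⟩ := Finset.mem_image.mp hC
    exact block_disjoint fun hij => hne (by rw [hij])

theorem blocks_disjoint {n r k : ℕ} :
    Disjoint ((blocks n r 0 k).biUnion id) ((blocks n r k k).biUnion id) := by
  rw [Finset.disjoint_left]
  intro x hx hy
  obtain ⟨B, hB, hxB⟩ := Finset.mem_biUnion.mp hx
  obtain ⟨C, hC, hxC⟩ := Finset.mem_biUnion.mp hy
  obtain ⟨i, hi, rfl⟩ := Finset.mem_image.mp hB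
  obtain ⟨j, hj, rfl⟩ := Finset.mem_image.mp hC
  rw [Finset.mem_Ico] at hi hj
  have hij : i ≠ j := by omega
  exact Finset.disjoint_left.mp (block_disjoint hij) hxB hxC

theorem lower {n r k : ℕ} (h2 : 2 ≤ n) (hn : Even n) (hr : 0 < r) (hk : 2 * r * k ≤ n)
    {F : Finset (Finset (Fin n))} (hF : MaxIntersecting n F) :
    ∃ M : Finset (Finset (Fin n)), M.card = k ∧ DisjointSystem n r M ∧ Shatters n F M := by
  have e0 : r * (0 + k) ≤ n := by nlinarith
  have e1 : r * (k + k) ≤ n := by nlinarith
  rcases one_of_two h2 hn hk hF (blocks_system e0) (blocks_system e1) (blocks_card hr e0)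
    (blocks_card hr e1) blocks_disjoint with h | h
  · exact ⟨_, blocks_card hr e0, blocks_system e0, h⟩
  · exact ⟨_, blocks_card hr e1, blocks_system e1, h⟩

/-- The family of all `n/2`-sets avoiding a point. -/
def avoid (n : ℕ) (x : Fin n) : Finset (Finset (Fin n)) :=
  univ.filter fun A => A.card = n / 2 ∧ x ∉ A

theorem avoid_max {n : ℕ} (hn : Even n) (x : Fin n) : MaxIntersecting n (avoid n x) := by
  have hnpos : 0 < n := lt_of_le_of_lt (Nat.zero_le _) x.2
  refine ⟨fun A hA => ?_, fun A hA B hB => ?_, fun A hA h => ?_⟩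
  · simp only [avoid, Finset.mem_filter, Finset.mem_univ, true_and] at hA
    exact hA.1
  · simp only [avoid, Finset.mem_filter, Finset.mem_univ, true_and] at hA hB
    by_contra hemp
    rw [Finset.not_nonempty_iff_eq_empty, ← Finset.disjoint_iff_inter_eq_empty] at hemp
    have hsub : A ∪ B ⊆ univ.erase x := by
      intro y hy
      rw [Finset.mem_erase]
      refine ⟨?_, Finset.mem_univ _⟩
      rintro rfl
      rcases Finset.mem_union.mp hy with h | h
      · exact hA.2 h
      · exact hB.2 h
    have hc := Finset.card_le_card hsub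
    rw [Finset.card_union_of_disjoint hemp, Finset.card_erase_of_mem (Finset.mem_univ _),
      Finset.card_univ, Fintype.card_fin] at hc
    obtain ⟨q, hq⟩ := hn
    omega
  · simp only [avoid, Finset.mem_filter, Finset.mem_univ, true_and]
    refine ⟨hA, fun hxA => ?_⟩
    have hcomp : Aᶜ ∈ avoid n x := by
      simp only [avoid, Finset.mem_filter, Finset.mem_univ, true_and, Finset.mem_compl,
        not_not]
      refine ⟨?_, hxA⟩
      rw [Finset.card_compl, Fintype.card_fin, hA]
      obtain ⟨q, hq⟩ := hn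
      omega
    have := h A (Finset.mem_insert_self _ _) Aᶜ (Finset.mem_insert_of_mem hcomp)
    rw [Finset.inter_compl] at this
    simp at this

theorem upper {n r k : ℕ} (hn : Even n) (h2 : 2 ≤ n) (hr : 1 ≤ r)
    (h : ∀ F : Finset (Finset (Fin n)), MaxIntersecting n F →
      ∃ M : Finset (Finset (Fin n)), M.card = k ∧ DisjointSystem n r M ∧ Shatters n F M) :
    2 * (k * (r - 1)) < n := by
  by_contra hcon
  push Not at hcon
  let x : Fin n := ⟨0, by omega⟩
  obtain ⟨M, hMk, hM, hsh⟩ := h (avoid n x) (avoid_max hn x)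
  have hne : ∀ B ∈ M, B.Nonempty := by
    intro B hB
    rw [← Finset.card_pos, hM.1 B hB]
    exact hr
  -- a choice function taking the value x whenever possible
  classical
  let t : Finset (Fin n) → Fin n := fun B =>
    if x ∈ B then x else if hB : B.Nonempty then hB.choose else x
  have ht : ∀ B ∈ M, t B ∈ B := by
    intro B hB
    simp only [t]
    split_ifs with h1 h3
    · exact h1
    · exact h3.choose_spec
    · exact absurd (hne B hB) h3
  obtain ⟨A, hA, hAt⟩ := hsh t ht
  simp only [avoid, Finset.mem_filter, Finset.mem_univ, true_and] at hA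
  have cU := card_union hM
  have cT := card_image hM t ht
  have sT := image_subset t ht
  set U := M.biUnion id with hU
  rw [hMk] at cU cT
  have hxU : x ∉ U := by
    intro hx
    obtain ⟨B, hB, hxB⟩ := Finset.mem_biUnion.mp hx
    have hxB' : x ∈ B := hxB
    have : t B = x := by
      simp only [t]
      rw [if_pos hxB']
    have hx2 : x ∈ M.image t := Finset.mem_image.mpr ⟨B, hB, this⟩
    rw [← hAt] at hx2
    exact hA.2 (Finset.mem_inter.mp hx2).1
  have e1 : A.card = (A ∩ U).card + (A \ U).card := (Finset.card_inter_add_card_sdiff A U).symm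
  have e2 : A \ U ⊆ (insert x U)ᶜ := by
    intro y hy
    rw [Finset.mem_sdiff] at hy
    rw [Finset.mem_compl, Finset.mem_insert, not_or]
    refine ⟨?_, hy.2⟩
    rintro rfl
    exact hA.2 hy.1
  have e3 := Finset.card_le_card e2
  rw [Finset.card_compl, Finset.card_insert_of_notMem hxU, Fintype.card_fin, cU] at e3
  rw [hAt, cT, hA.1] at e1
  have e4 : U.card + 1 ≤ n := by
    have := Finset.card_le_univ (insert x U)
    rw [Finset.card_insert_of_notMem hxU, Fintype.card_fin] at this
    exact this
  rw [cU] at e4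
  obtain ⟨q, hq⟩ := hn
  obtain ⟨r', rfl⟩ : ∃ r', r = r' + 1 := ⟨r - 1, by omega⟩
  have e5 : k * (r' + 1) = k * r' + k := by ring
  have e6 : k * (r' + 1 - 1) = k * r' := by simp
  rw [e6] at hcon
  rw [e5] at e3 e4
  omega

/-- **Order of magnitude of `k_r(n)`**: for all even `n ≥ 4` and all `r ≥ 3`,
`⌊n/(2r)⌋ ≤ k_r(n) ≤ ⌊(n-1)/(2(r-1))⌋`; hence `k_r(n) = 0` for `n < 2r`, and
`n < 4 r k_r(n) ≤ 3 n` for `n ≥ 2r`. -/
theorem result (n r : ℕ) (hn : Even n) (hn4 : 4 ≤ n) (hr : 3 ≤ r) :
    (n / (2 * r) ≤ kr r n ∧ kr r n ≤ (n - 1) / (2 * (r - 1))) ∧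
      (n < 2 * r → kr r n = 0) ∧
      (2 * r ≤ n → n < 4 * r * kr r n ∧ 4 * r * kr r n ≤ 3 * n) := by
  have hset : ∀ k ∈ {k : ℕ | ∀ F : Finset (Finset (Fin n)), MaxIntersecting n F →
      ∃ M : Finset (Finset (Fin n)), M.card = k ∧ DisjointSystem n r M ∧ Shatters n F M},
      k ≤ (n - 1) / (2 * (r - 1)) := by
    intro k hk
    have h1 := upper hn (by omega) (by omega) hk
    rw [Nat.le_div_iff_mul_le (by omega)]
    have : k * (2 * (r - 1)) = 2 * (k * (r - 1)) := by ring
    omega
  have hlow : n / (2 * r) ≤ kr r n := by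
    apply le_csSup ⟨_, hset⟩
    intro F hF
    exact lower (by omega) hn (by omega) (Nat.mul_div_le n (2 * r)) hF
  have hup : kr r n ≤ (n - 1) / (2 * (r - 1)) := by
    have hmem : (0 : ℕ) ∈ {k : ℕ | ∀ F : Finset (Finset (Fin n)), MaxIntersecting n F →
      ∃ M : Finset (Finset (Fin n)), M.card = k ∧ DisjointSystem n r M ∧ Shatters n F M} := by
      intro F hF
      exact lower (k := 0) (by omega) hn (by omega) (by omega) hF
    exact csSup_le ⟨0, hmem⟩ hset
  refine ⟨⟨hlow, hup⟩, fun h => ?_, fun h => ⟨?_, ?_⟩⟩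
  · have h1 : (n - 1) / (2 * (r - 1)) = 0 := by
      apply Nat.div_eq_of_lt
      obtain ⟨q, hq⟩ := hn
      omega
    omega
  · have h1 : 1 ≤ n / (2 * r) := by
      rw [Nat.le_div_iff_mul_le (by omega)]
      omega
    have h2 : n < 2 * r * (n / (2 * r) + 1) := by
      have := Nat.lt_mul_div_succ n (show 0 < 2 * r by omega)
      exact this
    have h3 : 2 * r * (n / (2 * r) + 1) ≤ 2 * r * (2 * kr r n) :=
      Nat.mul_le_mul_left _ (by omega)
    calc n < 2 * r * (n / (2 * r) + 1) := h2
      _ ≤ 2 * r * (2 * kr r n) := h3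
      _ = 4 * r * kr r n := by ring
  · have h1 : kr r n * (2 * (r - 1)) ≤ n - 1 := by
      rw [← Nat.le_div_iff_mul_le (by omega)]
      exact hup
    obtain ⟨s, rfl⟩ : ∃ s, r = s + 3 := ⟨r - 3, by omega⟩
    have e : s + 3 - 1 = s + 2 := by omega
    rw [e] at h1
    have h1' : kr (s + 3) n * (2 * (s + 2)) ≤ n := h1.trans (Nat.sub_le _ _)
    nlinarith

end Pool.Agent.Results.MP_5e3dfa_co.OrderOfMagnitude
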